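import Pool.Agent.Y163.MW.Asm
import Pool.Agent.Y954.MW.B1

/-!
# MP_855f4c_ag: the asymptotic index law for the inertia invariants of the powers of `X`
-/

set_option autoImplicit false

open Module Filter Topology

universe u v w

namespace Pool.Agent.Results.MP_855f4c_ag.IndexLaw

open Pool.Agent.H914 Pool.Agent.Y143 Pool.Agent.Y163.MW

/-- **The index law.** Let `K` be a local field whose residue field has `q` elements, and let `T` be
the `ℓ`-adic cohomology of the smooth proper varieties over `K`, with its known properties. Let `X`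
be a variety whose monodromy operator `N` is not zero. Then the quotient of the dimension of the
kernel of `N` on the cohomology of `X^(n + 1)` by its dimension predicted by the Frobenius weights
converges, as `n → ∞`, to the square root `λ` of the quotient of the two numbers
`∑ (w - m)²` (over the Frobenius eigenvalues of weight `w` on the `H^m(X)`) and
`2 ∑ k rank (N ^ k)`. One has `λ ≥ 1`, with equality if and only if all `H^m(X)` are mw pure. -/
theorem result {K : Type u} [Field K] {Ω : Type w} [Field Ω] [CharZero Ω] [IsAlgClosed Ω]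
    {T : Theory.{u, v, w} K Ω} {q : ℕ} (hq : 1 < q) (hT : T.IsLocal q) (X : SmVar.{u} K)
    (hN : (T.H X).N ≠ 0) :
    ∃ c : ℝ, c = √(((T.H X).totWeightMoment q : ℝ) / ((T.H X).totRankMoment : ℝ)) ∧
      Tendsto (fun n : ℕ => ((T.H (pow X n)).inv : ℝ) / ((T.H (pow X n)).pred q : ℝ)) atTop
        (𝓝 c) ∧ 1 ≤ c ∧ (c = 1 ↔ ∀ m, (T.H X).MWPure q m) := by
  refine ⟨_, rfl, index_law (Pool.Agent.Y954.MW.stB1 Pool.Agent.Y141.MW.stL) hT hq X hN, ?_⟩
  have hpos := Coh.totRank_pos hq (hT.coh X) hN
  obtain ⟨hle, hiff⟩ := Coh.moment_tot hq (hT.coh X)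
  have hpos' : (0 : ℝ) < ((T.H X).totRankMoment : ℝ) := by exact_mod_cast hpos
  have hle' : ((T.H X).totRankMoment : ℝ) ≤ ((T.H X).totWeightMoment q : ℝ) := by
    exact_mod_cast hle
  have h1 : (1 : ℝ) ≤ ((T.H X).totWeightMoment q : ℝ) / ((T.H X).totRankMoment : ℝ) := by
    rw [le_div_iff₀ hpos', one_mul]
    exact hle'
  refine ⟨Real.one_le_sqrt.2 h1, ?_⟩
  rw [Real.sqrt_eq_one, div_eq_one_iff_eq hpos'.ne', ← hiff]
  constructor
  · intro h
    exact_mod_cast h.symm
  · intro h
    rw [h]

end Pool.Agent.Results.MP_855f4c_ag.IndexLaw
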