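import Pool.Agent.Q60.LO.Coh

/-!
# MP_855f4c_ag: a Littlewood–Offord law for the weights on products of different varieties

Let `X_0, …, X_n` be smooth proper varieties over a local field, with total Betti numbers `b_i`. The
defect of a Frobenius eigenvalue of weight `w` on the graded piece `M_r / M_(r - 1)` of the
monodromy filtration of `H^m(X_0 × ⋯ × X_n)` is `w - m - r`; the weight-monodromy conjecture
predicts the defect `0`. If the conjecture holds for all `X_i`, all defects are `0`. If it fails for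
`k ≥ 1` of the `X_i`, with `b_i ≤ b` for these, then every single value `s` of the defect occurs for
at most `√(b / (2 (k + 1))) ∏ b_i` of the `∏ b_i` eigenvalues. So, if a proportion `ρ` of the
eigenvalues has the predicted weight, the number `k` of the factors which violate the conjecture
satisfies `k + 1 ≤ b / (2 ρ²)`.
-/

set_option autoImplicit false

open Module

universe u v w

namespace Pool.Agent.Results.MP_855f4c_ag.LittlewoodOfford

open Pool.Agent.H914 Pool.Agent.Y143 Pool.Agent.Y163.MW Pool.Agent.Q60.LO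

/-- **The Littlewood–Offord law for the weight-monodromy conjecture.** -/
theorem result {K : Type u} [Field K] {Ω : Type w} [Field Ω] [CharZero Ω] [IsAlgClosed Ω]
    {T : Theory.{u, v, w} K Ω} {q : ℕ} (hq : 1 < q) (hT : T.IsLocal q) (n : ℕ)
    (X : Fin (n + 1) → SmVar.{u} K) (M : ℤ → Submodule Ω (T.H (prods n X)).V)
    (hM : IsMonodromyFiltrationOn ⊤ (T.H (prods n X)).N M) :
    ((∀ i m, (T.H (X i)).MWPure q m) →
      defects (T.H (prods n X)) q M 0 = ∏ i, (finrank Ω (T.H (X i)).V : ℤ)) ∧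
    (∀ (F : Finset (Fin (n + 1))) (b : ℝ), F.Nonempty →
      (∀ i ∈ F, ¬ ∀ m, (T.H (X i)).MWPure q m) → (∀ i ∈ F, (finrank Ω (T.H (X i)).V : ℝ) ≤ b) →
      (∀ s : ℤ, (defects (T.H (prods n X)) q M s : ℝ) ≤
        √(b / (2 * ((F.card : ℝ) + 1))) * ∏ i, (finrank Ω (T.H (X i)).V : ℝ)) ∧
      ∀ (s : ℤ) (ρ : ℝ), 0 < ρ → (∀ i, 0 < finrank Ω (T.H (X i)).V) →
        ρ * ∏ i, (finrank Ω (T.H (X i)).V : ℝ) ≤ (defects (T.H (prods n X)) q M s : ℝ) →
        (F.card : ℝ) + 1 ≤ b / (2 * ρ ^ 2)) := by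
  refine ⟨fun h => all_right hT hq n X hM h, fun F b hF hfail hb => ?_⟩
  have key := fun s => lo_law hT hq n X hM F hF hfail hb s
  refine ⟨key, fun s ρ hρ hpos h => ?_⟩
  have h1 : (0 : ℝ) < ∏ i, (finrank Ω (T.H (X i)).V : ℝ) :=
    Finset.prod_pos fun i _ => by exact_mod_cast hpos i
  have h2 : ρ ≤ √(b / (2 * ((F.card : ℝ) + 1))) := le_of_mul_le_mul_right (h.trans (key s)) h1
  have hk : (0 : ℝ) < (F.card : ℝ) + 1 := by positivity
  have hb0 : 0 ≤ b := by
    obtain ⟨i, hi⟩ := hF
    exact le_trans (by positivity) (hb i hi)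
  have h3 : ρ ^ 2 ≤ b / (2 * ((F.card : ℝ) + 1)) := by
    have := pow_le_pow_left₀ hρ.le h2 2
    rwa [Real.sq_sqrt (by positivity)] at this
  rw [le_div_iff₀ (by positivity)] at h3 ⊢
  linarith

end Pool.Agent.Results.MP_855f4c_ag.LittlewoodOfford
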