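import Pool.Agent.Y163.MX.Wrong

/-!
# MP_855f4c_ag: the second moment criterion for mw purity
-/

set_option autoImplicit false

open Module

universe u v w

namespace Pool.Agent.Results.MP_855f4c_ag.MomentCriterion

open Pool.Agent.H914 Pool.Agent.Y143 Pool.Agent.Y163.MW Pool.Agent.Y163.MX

/-- **The second moment criterion.** Let `K` be a local field whose residue field has `q` elements,
and let `T` be the `ℓ`-adic cohomology of the smooth proper varieties over `K`, with its known
properties. For every variety `X` and every `m`, the number `A = 2 ∑ k rank (N ^ k)` (on `H^m(X)`)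
is at most the number `B = ∑ (w - m)²` (over the Frobenius eigenvalues of weight `w` on `H^m(X)`);
equality holds if and only if `H^m(X)` is mw pure; and in general at most `B - A` of the Frobenius
eigenvalues on the graded pieces of the monodromy filtration do not have the predicted weight. -/
theorem result {K : Type u} [Field K] {Ω : Type w} [Field Ω] [CharZero Ω] [IsAlgClosed Ω]
    {T : Theory.{u, v, w} K Ω} {q : ℕ} (hq : 1 < q) (hT : T.IsLocal q) (X : SmVar.{u} K) (m : ℕ) :
    (T.H X).rankMoment m ≤ (T.H X).weightMoment q m ∧
    ((T.H X).rankMoment m = (T.H X).weightMoment q m ↔ (T.H X).MWPure q m) ∧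
    ∀ M : ℤ → Submodule Ω (T.H X).V, IsMonodromyFiltrationOn ((T.H X).gr m) (T.H X).N M →
      (finrank Ω ((T.H X).gr m) : ℤ) - rightDeg (T.H X) q m M ≤
        (T.H X).weightMoment q m - (T.H X).rankMoment m :=
  ⟨(Coh.moment_deg hq (hT.coh X) m).1, (Coh.moment_deg hq (hT.coh X) m).2,
    fun _ hM => wrong_le hq (hT.coh X) m hM⟩

end Pool.Agent.Results.MP_855f4c_ag.MomentCriterion
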