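import Pool.Agent.Y163.MW.Asm
import Pool.Agent.Y954.MW.B1

/-!
# MP_855f4c_ag: the weight-monodromy conjecture for `X` and the inertia invariants of `X × X`
-/

set_option autoImplicit false

open Module

universe u v w

namespace Pool.Agent.Results.MP_855f4c_ag.SquareCriterion

open Pool.Agent.H914 Pool.Agent.Y143 Pool.Agent.Y163.MW

/-- **The weight-monodromy conjecture for `X` is a statement about one number of `X × X`.** Let `K`
be a local field whose residue field has `q` elements, and let `T` be the `ℓ`-adic cohomology of
the smooth proper varieties over `K` (with the actions of a Frobenius lift and of the monodromy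
operator `N`, and their known properties). For a variety `Y` let `inv Y` be the dimension of the
kernel of `N` on the whole cohomology of `Y`, and `pred Y` the number of the Frobenius eigenvalues
on the `H^m(Y)` whose weight is `m` or `m + 1`. Then `pred Y ≤ inv Y` for all `Y`, and all the
groups `H^m(X)` are mw pure if and only if `inv (X × X) = pred (X × X)`. -/
theorem result {K : Type u} [Field K] {Ω : Type w} [Field Ω] [CharZero Ω] [IsAlgClosed Ω]
    {T : Theory.{u, v, w} K Ω} {q : ℕ} (hq : 1 < q) (hT : T.IsLocal q) :
    (∀ Y : SmVar.{u} K, (T.H Y).pred q ≤ (T.H Y).inv) ∧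
    ∀ X : SmVar.{u} K,
      (∀ m, (T.H X).MWPure q m) ↔ (T.H (X.prod X)).inv = (T.H (X.prod X)).pred q :=
  ⟨fun Y => Coh.pred_le_inv (Pool.Agent.Y954.MW.stB1 Pool.Agent.Y141.MW.stL) hq (hT.coh Y),
    fun X => (square_iff (Pool.Agent.Y954.MW.stB1 Pool.Agent.Y141.MW.stL) hT hq X).symm⟩

end Pool.Agent.Results.MP_855f4c_ag.SquareCriterion
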